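import Pool.Agent.KS6_67.ZW.Four
import Pool.Agent.KS6_67.ZW.Ext

set_option autoImplicit false

/-! # MP_d888c1_al: `Z wr Z^n` embeds in `PL(I^d)` for every `n` and every `d ≥ 4` -/

namespace Pool.Agent.Results.MP_d888c1_al.EveryRankInDimensionFour

open Pool.Agent.KS6_67.ZW

/-- For every `n` and every `d ≥ 4` there are piecewise linear homeomorphisms `a`, `t_1, …, t_n` of
the cube `[0,1]^d` which satisfy exactly the relations of `Z wr Z^n`: the `t_i` commute, the
conjugates of `a` by the elements `t^v` commute, and every normal form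
`(∏ (t^{v_j} a t^{-v_j})^{k_j}) t^v` with distinct `v_j` that equals `1` has `v = 0` and all
`k_j = 0`. -/
theorem result (n d : ℕ) (hd : 4 ≤ d) :
    ∃ (a : Equiv.Perm (Cube d)) (t : Fin n → Equiv.Perm (Cube d)),
      IsPL d a ∧ (∀ i, IsPL d (t i)) ∧
      (∀ i j, t i * t j = t j * t i) ∧
      (∀ v w : Fin n → ℤ,
          Commute
            ((List.ofFn fun i => t i ^ v i).prod * a * ((List.ofFn fun i => t i ^ v i).prod)⁻¹)
            ((List.ofFn fun i => t i ^ w i).prod * a * ((List.ofFn fun i => t i ^ w i).prod)⁻¹)) ∧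
      (∀ (l : List ((Fin n → ℤ) × ℤ)) (v : Fin n → ℤ),
          (l.map Prod.fst).Nodup →
          (l.map (fun p : (Fin n → ℤ) × ℤ =>
              ((List.ofFn fun i => t i ^ p.1 i).prod * a *
                ((List.ofFn fun i => t i ^ p.1 i).prod)⁻¹) ^ p.2)).prod *
            (List.ofFn fun i => t i ^ v i).prod = 1 →
          v = 0 ∧ ∀ p ∈ l, p.2 = 0) := by
  obtain ⟨m, rfl⟩ : ∃ m, d = 4 + m := ⟨d - 4, by omega⟩
  obtain ⟨a, t, h1, h2, h3, h4⟩ := main4 n
  have hT : ∀ v : Fin n → ℤ, (List.ofFn fun i => (ext 4 m (t i)) ^ v i).prod =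
      ext 4 m (List.ofFn fun i => t i ^ v i).prod := by
    intro v
    rw [map_list_prod, List.map_ofFn]
    congr 2
    ext1 i
    show _ = ext 4 m (t i ^ v i)
    rw [map_zpow]
  have hconj : ∀ v : Fin n → ℤ, (List.ofFn fun i => (ext 4 m (t i)) ^ v i).prod * ext 4 m a *
      ((List.ofFn fun i => (ext 4 m (t i)) ^ v i).prod)⁻¹ =
      ext 4 m ((List.ofFn fun i => t i ^ v i).prod * a *
        ((List.ofFn fun i => t i ^ v i).prod)⁻¹) := by
    intro v
    rw [hT, map_mul, map_mul, map_inv]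
  refine ⟨ext 4 m a, fun i => ext 4 m (t i), ext_PL (h1 a (Or.inl rfl)),
    fun i => ext_PL (h1 (t i) (Or.inr ⟨i, rfl⟩)), ?_, ?_, ?_⟩
  · intro i j
    rw [← map_mul, ← map_mul, h2]
  · intro v w
    rw [hconj, hconj]
    exact Commute.map (h3 v w) (ext 4 m)
  · intro l v hl h
    refine h4 l v hl ?_
    apply ext_inj (m := m)
    rw [map_mul, map_one, ← h, map_list_prod, List.map_map, hT]
    congr 2
    apply List.map_congr_left
    intro p _
    rw [Function.comp_apply, map_zpow, hconj]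

end Pool.Agent.Results.MP_d888c1_al.EveryRankInDimensionFour
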